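import Pool.Agent.H85.KS2.Asm

/-!
# MP_ff41bc_an: endpoint bound for the arithmetic k-spherical maximal operator, `d ≥ min (2^k) (2k²-2k) + 5`
Paper proof: helper85 (team-store `H85_KS2.md`), in the frame of helper98 (`H98_KS_proof.md`). Lean modules:
by the seats named in the import paths of `Pool.Agent.H98.KS.Asm` and `Pool.Agent.H85.KS2.Asm`.
-/

open scoped ENNReal NNReal

namespace Pool.Agent.Results.MP_ff41bc_an.EndpointExplicit

open Pool.Agent.H98.KS

/-- For every `k ≥ 3` and every `d ≥ min (2 ^ k) (2 k (k - 1)) + 5` the k-spherical maximal operator on `ℤ^d`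
is bounded from `ℓ^{p,1}` to `ℓ^{p,∞}` with `p = d/(d-k)`. -/
theorem result : ∀ k d : ℕ, 3 ≤ k → min (2 ^ k) (2 * k * (k - 1)) + 5 ≤ d → k < d ∧
    ∃ C : ℝ≥0, ∀ f : (Fin d → ℤ) → ℂ,
      weakNorm ((d : ℝ) / ((d : ℝ) - k)) (maxOp k d f)
        ≤ C * lorentzNorm ((d : ℝ) / ((d : ℝ) - k)) f :=
  Pool.Agent.H85.KS2.endpoint2

end Pool.Agent.Results.MP_ff41bc_an.EndpointExplicit
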